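import Pool.Agent.Helper46.Form.Main

/-!
Uniqueness of factorizations of subformations of one-generated saturated formations into
non-decomposable factors.
-/

namespace Pool.Agent.Results.MP_456268_al.UniqueFactorization

open Pool.Agent.Helper46.Form

/-- Let `M` be a one-generated saturated formation and `F` a subformation of `M`.  If `F` is the
product of the non-decomposable formations in the list `L₁`, and also the product of the
non-decomposable formations in the list `L₂`, then `L₁ = L₂`. -/
theorem result (M : Formation) (hM : M.OneGenerated) (F : Formation) (hF : F ≤ M)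
    (L₁ L₂ : List Formation) (h₁ : ∀ X ∈ L₁, X.NonDecomposable)
    (h₂ : ∀ X ∈ L₂, X.NonDecomposable) (e₁ : F = L₁.prod) (e₂ : F = L₂.prod) : L₁ = L₂ :=
  unique_factorization M hM F hF L₁ L₂ h₁ h₂ e₁ e₂

end Pool.Agent.Results.MP_456268_al.UniqueFactorization
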